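import Pool.Agent.Results.MP_caf222_co.AllAlphabets

/-!
# Palindromic fixed points whose language comes from no morphism of class P

Over every alphabet with at least three letters there is a fixed point `u` of a primitive morphism
whose language contains infinitely many palindromes and is not the language of any fixed point of
a morphism of class P. So the equivalence of Hof, Knill and Simon fails. The word is the one of the
starting theorem `AllAlphabets` of the problem `MP_caf222_co` (class P', the morphisms conjugate to
one of class P).
-/

namespace Pool.Agent.Results.MP_56c58d_co.ClassPFails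

open Pool.Helper223.CP

/-- Class P of the problem: a primitive morphism `ψ` for which there are palindromes `p` and `q a`
with `ψ a = p ++ q a`. -/
def InClassP {α : Type} (ψ : α → List α) : Prop :=
  IsPrimitive ψ ∧ ∃ p : List α, IsPalindrome p ∧ ∀ a, ∃ q : List α, IsPalindrome q ∧ ψ a = p ++ q

/-- For every `k ≥ 3` there are a primitive morphism `φ` over `k` letters and a fixed point `u` of
`φ` such that the language of `u` contains infinitely many palindromes and is not the language of
a fixed point of a morphism of class P; so the equivalence of the problem fails for `u`. -/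
theorem result (k : ℕ) (hk : 3 ≤ k) : ∃ (φ : Fin k → List (Fin k)) (u : ℕ → Fin k),
    IsPrimitive φ ∧ IsFixedPoint φ u ∧
    {w | w ∈ language u ∧ IsPalindrome w}.Infinite ∧
    (¬ ∃ (ψ : Fin k → List (Fin k)) (v : ℕ → Fin k),
      InClassP ψ ∧ IsFixedPoint ψ v ∧ language u = language v) ∧
    ¬ ({w | w ∈ language u ∧ IsPalindrome w}.Infinite ↔
      ∃ (ψ : Fin k → List (Fin k)) (v : ℕ → Fin k),
        InClassP ψ ∧ IsFixedPoint ψ v ∧ language u = language v) := by
  obtain ⟨φ, u, h1, h2, h3, -, h5, -, -⟩ := Pool.Agent.Results.MP_caf222_co.AllAlphabets.result k hk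
  have h6 : ¬ ∃ (ψ : Fin k → List (Fin k)) (v : ℕ → Fin k),
      InClassP ψ ∧ IsFixedPoint ψ v ∧ language u = language v := by
    rintro ⟨ψ, v, ⟨hp, hP⟩, hv, hl⟩
    exact h5 ψ ⟨ψ, hP, [], Or.inl fun a => by simp⟩ hp v hv hl.symm
  exact ⟨φ, u, h1, h2, h3, h6, fun h => h6 (h.1 h3)⟩

end Pool.Agent.Results.MP_56c58d_co.ClassPFails
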